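import Pool.Agent.helper71.SN.Fin2

/-!
# A simple manifold without strictly convex functions, in every dimension at least three

For every `n ≥ 3` there is a simple metric on the closed unit ball `M` of `ℝⁿ` (strictly convex
boundary, every `exp_x` a diffeomorphism from its maximal domain onto `M`, unit speed geodesics of
length less than `π`) which admits no strictly convex function, nor a foliation by strictly convex
hypersurfaces up to a set with empty interior.  So the known theorem on the weighted geodesic ray
transform (arbitrary weights, `n ≥ 3`, for manifolds with a strictly convex function) does not
apply to all simple manifolds.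

For the ideas of the proof see `Pool.Agent.Results.MP_07cd05_gt.NoConvexFoliation`.
-/

namespace Pool.Agent.Results.MP_fd5c23_gt.NoConvexFunction

open SN KBR

/-- For every `n ≥ 3` there is a simple metric on the closed unit ball of `ℝⁿ` without strictly
convex functions and without foliations by strictly convex hypersurfaces, up to a set with empty
interior. -/
theorem result (n : ℕ) (hn : 3 ≤ n) : ∃ (G : Fld n) (Γ : E n → E n → E n → E n),
    Simple G Γ ∧ LenLtPi G ∧ (¬ ∃ f, StrictConvexFn Γ f) ∧ (¬ ∃ f a, ConvexFoliation Γ f a) :=
  main2 n hn

end Pool.Agent.Results.MP_fd5c23_gt.NoConvexFunction
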