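import Pool.Agent.helper71.SW.Fin

/-!
# The weighted geodesic ray transform is not injective on every simple manifold of dimension three

There are a simple metric on the closed unit ball `M` of `ℝ³` (strictly convex boundary, every
`exp_x` a diffeomorphism from its maximal domain onto `M`, no conjugate points, nontrapping), a
smooth positive weight `w` on the sphere bundle (even on all of `ℝ³ × ℝ³`) and a smooth function
`f ≠ 0` with compact support in the interior of `M`, such that the integral of `w(c, c') f(c)` over
every unit speed geodesic between boundary points vanishes.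

Ideas of the proof.
* The metric is `e^{2L}|dx|²`, a perturbation of a hemisphere of the round `S³` with coordinates
  `(X, z) ∈ ℝ³ × ℝ`: `L = L_round + μ(z) - ψ(X) Q(z)`, `ψ = 1` outside the six disjoint caps
  `|X_i| > 3/4`, `ψ = 1 - Σ (|X_i| β'(|X_i|) - β(|X_i|))`, `β(x) = exp(-1/(x - 3/4))`.  Every great
  circle of `S²` meets a cap, which makes all geodesics shorter than `π` and excludes conjugate
  points (Sturm comparison with the function `z`, `Pool.Agent.helper71.SN`).
* Let `Φ = Σ β(|X_i|)` and `ρ = z - z0 - A Φ`.  Geodesics tangent to `{ρ = 0}` and to the level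
  sets of `Φ` enter `{ρ > 0}` on both sides.  So, by compactness, along geodesics with
  `0 < max ρ` small the phase `Φ` is strictly monotone as long as `ρ ≥ 0`.
* `f` is the sum over `k` of `2^(-k³) χ(2^k r) cos(2^(k²) Φ)`, `r` proportional to `ρ`, cut off for
  larger `r` and completed by bumps of both signs (Boman's oscillation).  For the geodesics along
  which `∫ f²` is small, `w = 1 - f ∫ f / ∫ f²` (smooth: nonstationary phase); along the others `f`
  takes both signs and an explicit weight exists; the two are glued by a function of `∫ f²`.

Design and statement: helper79; geometry and assembly: helper71; analysis: helper97 with helper7,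
helper14, helper21, helper23, helper36, helper41, helper51, helper55, helper63, helper75, helper86,
helper88, helper99; modules of the first stage: see `Pool.Agent.helper71.SN`.
-/

namespace Pool.Agent.Results.MP_fd5c23_gt.NonInjectiveWeight

open SN KBR
open scoped ContDiff

/-- There are a simple metric on the closed unit ball of `ℝ³`, a smooth positive weight and a
smooth function, not identically zero, whose weighted integrals over all geodesics between boundary
points vanish. -/
theorem result : ∃ (G : Fld 3) (Γ : E 3 → E 3 → E 3 → E 3) (w : E 3 × E 3 → ℝ) (f : E 3 → ℝ),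
    Simple G Γ ∧ LenLtPi G ∧ WR.NonTrap G ∧ WR.NoConj G Γ ∧
    ContDiff ℝ ∞ w ∧ (∀ p, 0 < w p) ∧
    ContDiff ℝ ∞ f ∧ (∃ r < 1, ∀ x, r ≤ ‖x‖ → f x = 0) ∧ (∃ x ∈ M 3, f x ≠ 0) ∧
    ∀ T c v, 0 ≤ T → WR.UGeo G T c v → c 0 ∈ bM 3 → c T ∈ bM 3 → WR.rayInt w f T c v = 0 :=
  SW.main

end Pool.Agent.Results.MP_fd5c23_gt.NonInjectiveWeight
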